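import Pool.Agent.Lib.MP_9703cd_gt.Main
import Pool.Agent.Lib.MP_9703cd_gt.TNorm
set_option autoImplicit false
open Set
open scoped ContDiff
open Pool.Agent.Lib.MP_9703cd_gt

namespace Pool.Agent.Results.MP_9703cd_gt.NonIsothermal

/-- There is a continuous t-norm `T`, given by a `C ^ ∞` function on the whole plane and with
strictly positive partial derivatives on the open unit square, and a nonempty open subset `U` of
the open unit square such that the graph of `T` has no umbilic point over `U` and is isothermal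
near none of its points over `U`. -/
theorem result : ∃ T : ℝ × ℝ → ℝ, IsContinuousTNorm T ∧ ContDiff ℝ ∞ T ∧
    (∀ p ∈ Ioo (0 : ℝ) 1 ×ˢ Ioo (0 : ℝ) 1,
      0 < fderiv ℝ T p (1, 0) ∧ 0 < fderiv ℝ T p (0, 1)) ∧
    ∃ U : Set (ℝ × ℝ), IsOpen U ∧ U.Nonempty ∧ U ⊆ Ioo (0 : ℝ) 1 ×ˢ Ioo (0 : ℝ) 1 ∧
      ∀ p ∈ U, ¬ IsUmbilic T p ∧ ¬ IsIsothermalNear T p := by
  have hU : IsOpen (Ioo (0 : ℝ) (1 / 4) ×ˢ Ioo (1 / 2 : ℝ) 1) := isOpen_Ioo.prod isOpen_Ioo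
  have hf : ∀ q ∈ Ioo (0 : ℝ) (1 / 4) ×ˢ Ioo (1 / 2 : ℝ) 1, T q = model q := fun q hq =>
    T_eq hq.1.1 hq.1.2 hq.2.1 hq.2.2
  refine ⟨T, T_isTNorm, T_contDiff, fun p hp => T_deriv_pos hp.1.1 hp.2.1,
    Ioo (0 : ℝ) (1 / 4) ×ˢ Ioo (1 / 2 : ℝ) 1, hU, ⟨(1 / 8, 3 / 4), ?_⟩, ?_, ?_⟩
  · constructor <;> constructor <;> norm_num
  · rintro q ⟨h1, h2⟩
    exact ⟨⟨h1.1, h1.2.trans (by norm_num)⟩, ⟨lt_trans (by norm_num) h2.1, h2.2⟩⟩
  · intro p hp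
    refine ⟨not_umbilic hU hf hp (lt_trans (by norm_num) hp.2.1),
      not_isothermal hU hf (fun q hq => ⟨hq.1.1, lt_trans (by norm_num) hq.2.1⟩) hp⟩

end Pool.Agent.Results.MP_9703cd_gt.NonIsothermal
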